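import Pool.Agent.H23.DF.TargetsL

/-!
# (CH) the ideals of the chain of a friable conductor
-/

set_option autoImplicit false

open NumberField

namespace Pool.Agent.H42.DF.CH

open Pool.Agent.H23.DF Pool.Agent.H23.LB

section aux

variable {K : Type} [Field K] [NumberField K]

private lemma Nf_mul (I J : Ideal (𝓞 K)) : Nf K (I * J) = Nf K I * Nf K J := by
  unfold Nf
  rw [map_mul, Nat.cast_mul]

private lemma Nf_pow (I : Ideal (𝓞 K)) (n : ℕ) : Nf K (I ^ n) = Nf K I ^ n := by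
  unfold Nf
  rw [map_pow, Nat.cast_pow]

private lemma Nf_nonneg (I : Ideal (𝓞 K)) : 0 ≤ Nf K I := by
  unfold Nf
  positivity

private lemma Nf_one_le (I : Ideal (𝓞 K)) (h : I ≠ ⊥) : 1 ≤ Nf K I := by
  unfold Nf
  have h1 : 0 < Ideal.absNorm I :=
    Nat.pos_of_ne_zero fun h0 => h (Ideal.absNorm_eq_zero_iff.1 h0)
  exact_mod_cast h1

omit [NumberField K] in
private lemma ne_of_le {I J : Ideal (𝓞 K)} (h : I ≤ J) (hI : I ≠ ⊥) : J ≠ ⊥ :=
  fun h0 => hI (le_bot_iff.1 (h0 ▸ h))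

omit [NumberField K] in
private lemma mul_ne {I J : Ideal (𝓞 K)} (hI : I ≠ ⊥) (hJ : J ≠ ⊥) : I * J ≠ ⊥ :=
  mul_ne_zero hI hJ

/-- A multiple of `c` dividing `s` of norm between `N(c) ^ 3` and `N(c) ^ 3 Y`. -/
private lemma exists_mid (s c : Ideal (𝓞 K)) (Y : ℝ) (hs : s ≠ ⊥) (hY : 1 ≤ Y)
    (hfri : ∀ P : Ideal (𝓞 K), P.IsPrime → s ≤ P → Nf K P ≤ Y) (hsc : s ≤ c)
    (hn : Nf K c ^ 3 ≤ Nf K s) :
    ∃ t : Ideal (𝓞 K), s ≤ t ∧ t ≤ c ∧ Nf K c ^ 3 ≤ Nf K t ∧ Nf K t ≤ Nf K c ^ 3 * Y := by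
  classical
  have hex : ∃ n : ℕ, ∃ t : Ideal (𝓞 K), s ≤ t ∧ t ≤ c ∧ Nf K c ^ 3 ≤ Nf K t ∧
      Ideal.absNorm t = n := ⟨_, s, le_rfl, hsc, hn, rfl⟩
  obtain ⟨t, hst, htc, hct, htn⟩ := Nat.find_spec hex
  refine ⟨t, hst, htc, hct, ?_⟩
  have hc : c ≠ ⊥ := ne_of_le hsc hs
  have hc1 : 1 ≤ Nf K c := Nf_one_le c hc
  have ht : t ≠ ⊥ := ne_of_le hst hs
  obtain ⟨u, hu⟩ := Ideal.dvd_iff_le.2 htc
  by_cases hu1 : u = ⊤
  · rw [hu, hu1, Ideal.mul_top]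
    calc Nf K c = Nf K c ^ 1 * 1 := by ring
      _ ≤ Nf K c ^ 3 * Y := by
        refine mul_le_mul (pow_le_pow_right₀ hc1 (by norm_num)) hY zero_le_one ?_
        exact pow_nonneg (Nf_nonneg c) 3
  · obtain ⟨P, hP, huP⟩ := Ideal.exists_le_maximal u hu1
    obtain ⟨u', hu'⟩ := Ideal.dvd_iff_le.2 huP
    have htu : t ≤ u := by
      rw [hu]
      exact Ideal.mul_le_right
    have hsP : s ≤ P := hst.trans (htu.trans huP)
    have hPY := hfri P hP.isPrime hsP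
    have ht' : t = P * (c * u') := by
      rw [hu, hu']
      ring
    have htn' : Nf K t = Nf K P * Nf K (c * u') := by
      conv_lhs => rw [ht']
      exact Nf_mul _ _
    have hlt : Ideal.absNorm (c * u') < Ideal.absNorm t := by
      have h1 : Ideal.absNorm t = Ideal.absNorm P * Ideal.absNorm (c * u') := by
        conv_lhs => rw [ht']
        exact map_mul _ _ _
      have h0 : 0 < Ideal.absNorm t :=
        Nat.pos_of_ne_zero fun h0 => ht (Ideal.absNorm_eq_zero_iff.1 h0)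
      have h2 : Ideal.absNorm P ≠ 1 := fun h => hP.ne_top (Ideal.absNorm_eq_one_iff.1 h)
      have h3 : Ideal.absNorm P ≠ 0 := fun h => by
        rw [h, zero_mul] at h1
        omega
      have h4 : 0 < Ideal.absNorm (c * u') := by
        refine Nat.pos_of_ne_zero fun h => ?_
        rw [h, mul_zero] at h1
        omega
      have h5 : 2 ≤ Ideal.absNorm P := by omega
      rw [h1]
      nlinarith
    have hmin : ¬ Nf K c ^ 3 ≤ Nf K (c * u') := by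
      intro h
      have h1 : Nat.find hex ≤ Ideal.absNorm (c * u') := by
        refine Nat.find_le ⟨c * u', ?_, Ideal.mul_le_left, h, rfl⟩
        refine hst.trans ?_
        conv_lhs => rw [ht']
        exact Ideal.mul_le_right
      omega
    rw [htn']
    have h6 : Nf K (c * u') ≤ Nf K c ^ 3 := (not_le.1 hmin).le
    calc Nf K P * Nf K (c * u') ≤ Y * Nf K c ^ 3 :=
          mul_le_mul hPY h6 (Nf_nonneg _) (zero_le_one.trans hY)
      _ = Nf K c ^ 3 * Y := mul_comm _ _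

end aux

theorem pf_CH : F_CH := by
  classical
  intro K _ _ l s k κ Y hS hκ
  have hsk : s * k ≠ ⊥ := hS.lk.k_ne
  have hs : s ≠ ⊥ := fun h => hsk (by rw [h, Ideal.bot_mul])
  obtain ⟨b, hb⟩ := Ideal.dvd_iff_le.2 hκ.le
  obtain ⟨t, hst, htc, hlo, hup⟩ := exists_mid s (κ ⊔ s) Y hs hS.one hS.fri le_sup_right hκ.nrm
  have hks : k ⊔ s = ⊤ := by rw [sup_comm]; exact hS.cop
  -- `κ` is the product of its parts
  have hfac : κ = (κ ⊔ k) * (κ ⊔ s) := by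
    refine le_antisymm ?_ ?_
    · have h1 : (κ ⊔ k) ⊔ (κ ⊔ s) = ⊤ := by
        refine top_le_iff.1 ?_
        rw [← hks]
        exact sup_le_sup le_sup_right le_sup_right
      rw [Ideal.mul_eq_inf_of_coprime h1]
      exact le_inf le_sup_left le_sup_left
    · rw [Ideal.sup_mul, Ideal.mul_sup k κ s]
      refine sup_le Ideal.mul_le_left (sup_le Ideal.mul_le_right ?_)
      rw [mul_comm k s]
      exact hκ.le
  have hle : s * k ≤ (κ ⊔ k) ^ 3 * t := by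
    rw [mul_comm s k]
    exact Ideal.mul_mono hκ.cub hst
  obtain ⟨b₃, hb₃⟩ := Ideal.dvd_iff_le.2 hle
  have hκ₃ : (κ ⊔ k) ^ 3 * t ≤ κ := by
    conv_rhs => rw [hfac]
    exact Ideal.mul_mono (Ideal.pow_le_self (by norm_num)) htc
  have hκ0 : κ ≠ ⊥ := ne_of_le hκ.le hsk
  have hκ₃0 : (κ ⊔ k) ^ 3 * t ≠ ⊥ := ne_of_le hle hsk
  have hb0 : b ≠ ⊥ := fun h => hsk (by rw [hb, h, Ideal.mul_bot])
  have hb₃0 : b₃ ≠ ⊥ := by
    intro h
    refine hsk ?_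
    rw [hb₃, h, Ideal.mul_bot]
  have hloc : (κ ⊔ k) ^ 3 * t ⊔ k = (κ ⊔ k) ^ 3 := by
    refine le_antisymm (sup_le Ideal.mul_le_left hκ.cub) ?_
    have h1 : t ⊔ k = ⊤ := by
      refine top_le_iff.1 ?_
      rw [← hS.cop]
      exact sup_le_sup hst le_rfl
    calc (κ ⊔ k) ^ 3 = (κ ⊔ k) ^ 3 * (t ⊔ k) := by rw [h1, Ideal.mul_top]
      _ = (κ ⊔ k) ^ 3 * t ⊔ (κ ⊔ k) ^ 3 * k := Ideal.mul_sup _ _ _
      _ ≤ (κ ⊔ k) ^ 3 * t ⊔ k := sup_le_sup le_rfl Ideal.mul_le_right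
  have hlocs : (κ ⊔ k) ^ 3 * t ⊔ s = t := by
    refine le_antisymm (sup_le Ideal.mul_le_right hst) ?_
    have h1 : (κ ⊔ k) ^ 3 ⊔ s = ⊤ := by
      refine top_le_iff.1 ?_
      rw [← hks]
      exact sup_le_sup hκ.cub le_rfl
    calc t = ((κ ⊔ k) ^ 3 ⊔ s) * t := by rw [h1, Ideal.top_mul]
      _ = (κ ⊔ k) ^ 3 * t ⊔ s * t := Ideal.sup_mul _ _ _
      _ ≤ (κ ⊔ k) ^ 3 * t ⊔ s := sup_le_sup le_rfl Ideal.mul_le_left
  refine ⟨b, (κ ⊔ k) ^ 3 * t, b₃, ⟨hκ, hb, hκ₃, hb₃, hloc, ?_, ?_⟩, hκ0, hb0, hκ₃0, hb₃0, ?_, ?_⟩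
  · rw [hlocs]
    exact hup
  · have h1 : Nf K κ = Nf K (κ ⊔ k) * Nf K (κ ⊔ s) := by
      conv_lhs => rw [hfac]
      exact Nf_mul _ _
    rw [h1, mul_pow, Nf_mul, Nf_pow]
    exact mul_le_mul_of_nonneg_left hlo (pow_nonneg (Nf_nonneg _) 3)
  · rw [← Nf_mul, ← hb]
  · rw [← Nf_mul, ← hb₃]

end Pool.Agent.H42.DF.CH
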