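import Pool.Agent.H95.DR.Targets
import Pool.Agent.H29.THC.DFV

/-!
MP_52e316_nt, board dfx_modules, row AND: the divisor bound for the number of the ideals of a
given norm in a quadratic field.
-/

set_option autoImplicit false

open MeasureTheory Set Filter NumberField
open scoped Real nonZeroDivisors Matrix MatrixGroups

namespace Pool.Agent.H42.DF

open Pool.Agent.H31.CN Pool.Agent.H89.FM Pool.Agent.H61.FM Pool.Agent.H89.FC Pool.Agent.H95.FC
open Pool.Agent.H89.DF Pool.Agent.H95.DR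

theorem pf_NID : T_NID := by
  intro ε hε
  obtain ⟨C, hC⟩ := Pool.Agent.H29.THC.pf_DV 2 (ε / 2) (half_pos hε)
  refine ⟨max C 1, lt_of_lt_of_le one_pos (le_max_right _ _), ?_⟩
  intro K _ _ hK n hn
  have hn0 : (n : 𝓞 K) ≠ 0 := by
    have : n ≠ 0 := by omega
    exact_mod_cast this
  have hk : Ideal.span {(n : 𝓞 K)} ≠ ⊥ := by
    rw [Ne, Ideal.span_singleton_eq_bot]
    exact hn0
  have h2 : (Nn K n).card ≤ (Pool.Agent.H29.TC.dvs K (Ideal.span {(n : 𝓞 K)})).card := by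
    refine Finset.card_le_card_of_injOn (fun I => (I : Ideal (𝓞 K))) ?_
      (Subtype.val_injective.injOn)
    intro I hI
    have hI' : nm I = n := mem_Nn.1 hI
    have h3 : (I : Ideal (𝓞 K)) ∈ Pool.Agent.H29.TC.dvs K (Ideal.span {(n : 𝓞 K)}) := by
      rw [Pool.Agent.H29.THC.pf_DF K _ hk, Ideal.span_singleton_le_iff_mem]
      have h4 := Ideal.absNorm_mem (I : Ideal (𝓞 K))
      have h5 : Ideal.absNorm (I : Ideal (𝓞 K)) = n := hI'
      rwa [h5] at h4
    exact h3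
  have h3 := hC K hK _ hk
  have hn1 : (0 : ℝ) ≤ (n : ℝ) := Nat.cast_nonneg n
  have h4 : Pool.Agent.H23.LB.Nf K (Ideal.span {(n : 𝓞 K)}) = (n : ℝ) ^ 2 := by
    unfold Pool.Agent.H23.LB.Nf
    rw [Ideal.absNorm_span_natCast, RingOfIntegers.rank, hK]
    push_cast
    rfl
  have h5 : ((n : ℝ) ^ 2) ^ (ε / 2) = (n : ℝ) ^ ε := by
    rw [← Real.rpow_natCast, ← Real.rpow_mul hn1]
    congr 1
    push_cast
    ring
  rw [h4, h5] at h3
  calc ((Nn K n).card : ℝ)
      ≤ ((Pool.Agent.H29.TC.dvs K (Ideal.span {(n : 𝓞 K)})).card : ℝ) := by exact_mod_cast h2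
    _ ≤ C * (n : ℝ) ^ ε := h3
    _ ≤ max C 1 * (n : ℝ) ^ ε := by
        have := Real.rpow_nonneg hn1 ε
        have h6 := le_max_left C 1
        gcongr

end Pool.Agent.H42.DF
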