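import Pool.Agent.H95.DR.Targets

/-!
MP_52e316_nt, board dfx_modules, row ATY: the infinity type is multiplicative.
-/

set_option autoImplicit false

open MeasureTheory Set Filter NumberField
open scoped Real nonZeroDivisors Matrix MatrixGroups

namespace Pool.Agent.H42.DF

open Pool.Agent.H31.CN Pool.Agent.H89.FM Pool.Agent.H61.FM Pool.Agent.H89.FC Pool.Agent.H95.FC
open Pool.Agent.H89.DF Pool.Agent.H95.DR

theorem emb_ne {K : Type} [Field K] [NumberField K] (σ : K →+* ℝ) {a : 𝓞 K} (ha : a ≠ 0) :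
    σ (a : K) ≠ 0 := by
  have h : (a : K) ≠ 0 := by
    intro h
    exact ha (RingOfIntegers.coe_eq_zero_iff.1 h)
  exact (map_ne_zero σ).2 h

theorem sgn_mul (x y : ℝ) : Real.sign (x * y) = Real.sign x * Real.sign y := by
  rcases lt_trichotomy x 0 with hx | hx | hx <;> rcases lt_trichotomy y 0 with hy | hy | hy
  · rw [Real.sign_of_neg hx, Real.sign_of_neg hy, Real.sign_of_pos (mul_pos_of_neg_of_neg hx hy)]
    norm_num
  · rw [hy]; simp
  · rw [Real.sign_of_neg hx, Real.sign_of_pos hy, Real.sign_of_neg (mul_neg_of_neg_of_pos hx hy)]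
    norm_num
  · rw [hx]; simp
  · rw [hx]; simp
  · rw [hx]; simp
  · rw [Real.sign_of_pos hx, Real.sign_of_neg hy, Real.sign_of_neg (mul_neg_of_pos_of_neg hx hy)]
    norm_num
  · rw [hy]; simp
  · rw [Real.sign_of_pos hx, Real.sign_of_pos hy, Real.sign_of_pos (mul_pos hx hy)]
    norm_num

theorem pf_TYR : T_TYR := by
  intro K _ _ σ σ' κ ν
  have hlg : ∀ a b : 𝓞 K, a ≠ 0 → b ≠ 0 → lg σ σ' (a * b) = lg σ σ' a + lg σ σ' b := by
    intro a b ha hb
    have h1 := emb_ne σ ha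
    have h2 := emb_ne σ hb
    have h3 := emb_ne σ' ha
    have h4 := emb_ne σ' hb
    unfold lg
    have h5 : ((a * b : 𝓞 K) : K) = (a : K) * (b : K) := by push_cast; rfl
    rw [h5, map_mul, map_mul, mul_div_mul_comm, abs_mul,
      Real.log_mul (abs_ne_zero.2 (div_ne_zero h1 h3)) (abs_ne_zero.2 (div_ne_zero h2 h4))]
  refine ⟨fun a b ha hb => ⟨hlg a b ha hb, ?_⟩, ?_, ?_⟩
  · unfold tyr
    rw [hlg a b ha hb]
    have h5 : ((a * b : 𝓞 K) : K) = (a : K) * (b : K) := by push_cast; rfl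
    rw [h5, map_mul, map_mul,
      show σ (a : K) * σ (b : K) * (σ' (a : K) * σ' (b : K)) =
        (σ (a : K) * σ' (a : K)) * (σ (b : K) * σ' (b : K)) by ring, sgn_mul]
    rw [show (((ν * (lg σ σ' a + lg σ σ' b) : ℝ) : ℂ) * Complex.I) =
      ((ν * lg σ σ' a : ℝ) : ℂ) * Complex.I + ((ν * lg σ σ' b : ℝ) : ℂ) * Complex.I by
        push_cast; ring, Complex.exp_add]
    push_cast
    ring
  · intro a ha
    have h1 := emb_ne σ ha
    have h3 := emb_ne σ' ha
    unfold tyr
    rw [norm_mul, Complex.norm_exp_ofReal_mul_I, mul_one, norm_pow, Complex.norm_real]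
    rcases lt_or_gt_of_ne (mul_ne_zero h1 h3) with h | h
    · rw [Real.sign_of_neg h]; norm_num
    · rw [Real.sign_of_pos h]; norm_num
  · intro n hn
    have hnR : (n : ℝ) ≠ 0 := by exact_mod_cast hn
    have h1 : σ ((n : 𝓞 K) : K) = (n : ℝ) := by
      have : (((n : 𝓞 K)) : K) = (n : K) := rfl
      rw [this, map_intCast]
    have h2 : σ' ((n : 𝓞 K) : K) = (n : ℝ) := by
      have : (((n : 𝓞 K)) : K) = (n : K) := rfl
      rw [this, map_intCast]
    have h3 : lg σ σ' (n : 𝓞 K) = 0 := by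
      unfold lg
      rw [h1, h2, div_self hnR, abs_one, Real.log_one]
    refine ⟨h3, ?_⟩
    unfold tyr
    rw [h3, h1, h2, Real.sign_of_pos (mul_self_pos.2 hnR)]
    simp

end Pool.Agent.H42.DF
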