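import Pool.Agent.H89.DF.TargetsK
import Pool.Agent.H76.FM.BOX

/-!
# The twisted second moment over a box, for the forms which are anisotropic modulo a prime
-/

set_option autoImplicit false

open MeasureTheory Set Filter
open scoped Real Matrix MatrixGroups

namespace Pool.Agent.H42.DF

open Pool.Agent.H31.CN Pool.Agent.H89.FM Pool.Agent.H89.FC Pool.Agent.H89.DF
open Pool.Agent.H76.FM (abs_sub_lt_of_floor card_floor mem_floor)

/-- the key of a form with a point -/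
noncomputable def keyr (ρ w T : ℝ) (p : ℕ) (x y : QF → ℝ) (Q : QF) :
    (ℤ × ℤ × ℤ × ℤ × ℤ) × (ℤ × ℤ × ℤ) :=
  ((⌊ρ * Q.1 / w⌋, ⌊(Q.2.1 : ℝ) / w⌋, ⌊(Q.2.2 : ℝ) / (ρ * w)⌋, ⌊10000 * T * x Q / ρ⌋,
    ⌊10000 * T * y Q / ρ⌋), (Q.1 % p, Q.2.1 % p, Q.2.2 % p))

theorem dvd_sub_of_emod {p a b : ℤ} (h : a % p = b % p) : p ∣ b - a :=
  (Int.ModEq.dvd (h : a ≡ b [ZMOD p]))

theorem emod_mem (p : ℕ) (hp : p.Prime) (a : ℤ) : a % p ∈ Finset.Ico (0 : ℤ) p := by
  have h0 : (0 : ℤ) < p := by exact_mod_cast hp.pos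
  rw [Finset.mem_Ico]
  exact ⟨Int.emod_nonneg a h0.ne', Int.emod_lt_of_pos a h0⟩

/-- (BOXr) the twisted second moment over a box. -/
theorem pf_BOXr (hCEL : T_CELr) : T_BOXr := by
  intro ε hε
  obtain ⟨κ, hκ, hκ8, δ, hδ, hδ8, hδε, C, k, hC, H⟩ := hCEL (ε / 2) (by linarith)
  refine ⟨κ, hκ, hκ8, δ, hδ, hδ8, 80 ^ 3 * 120000 ^ 2 * C, k + 2, by positivity, ?_⟩
  intro m s Y ρ p N α S x y hs hY hρ hρY hN hNY hα hp hS
  have hY0 : 0 < Y := by linarith
  have hρ0 : 0 < ρ := by linarith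
  set T := 1 + |s.im| + |(m : ℝ)| with hT
  have hT1 : 1 ≤ T := by
    have h1 := abs_nonneg s.im
    have h2 := abs_nonneg (m : ℝ)
    linarith
  set w := Y ^ (1 - δ) / 4 with hw
  have hw0 : 0 < w := by positivity
  have hYw : Y / w = 4 * Y ^ δ := by
    rw [hw, div_div_eq_mul_div, div_eq_iff (by positivity)]
    have : Y ^ δ * Y ^ (1 - δ) = Y := by
      rw [← Real.rpow_add hY0]; simp
    nlinarith
  have hYδ : 1 ≤ Y ^ δ := Real.one_le_rpow hY hδ.le
  have hww : 3 * w ^ 2 ≤ Y ^ (2 - 2 * δ) := by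
    have : (Y ^ (1 - δ)) ^ 2 = Y ^ (2 - 2 * δ) := by
      rw [← Real.rpow_natCast, ← Real.rpow_mul hY0.le]
      congr 1; push_cast; ring
    rw [hw, div_pow, this]
    have : 0 < Y ^ (2 - 2 * δ) := by positivity
    nlinarith
  set B1 := 20 * Y ^ δ with hB1
  set B2 := 30000 * T with hB2
  set K1 : Finset (ℤ × ℤ × ℤ × ℤ × ℤ) := Finset.Icc ⌊-B1⌋ ⌊B1⌋ ×ˢ Finset.Icc ⌊-B1⌋ ⌊B1⌋ ×ˢ
    Finset.Icc ⌊-B1⌋ ⌊B1⌋ ×ˢ Finset.Icc ⌊-B2⌋ ⌊B2⌋ ×ˢ Finset.Icc ⌊-B2⌋ ⌊B2⌋ with hK1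
  set K2 : Finset (ℤ × ℤ × ℤ) := Finset.Ico (0 : ℤ) p ×ˢ Finset.Ico (0 : ℤ) p ×ˢ
    Finset.Ico (0 : ℤ) p with hK2
  have hmaps : ∀ Q ∈ S, keyr ρ w T p x y Q ∈ K1 ×ˢ K2 := by
    intro Q hQ
    obtain ⟨-, h1, h2, h3, h4, h5, h6⟩ := hS Q hQ
    simp only [hK1, hK2, keyr, Finset.mem_product]
    refine ⟨⟨mem_floor ?_, mem_floor ?_, mem_floor ?_, mem_floor ?_, mem_floor ?_⟩,
      emod_mem p hp _, emod_mem p hp _, emod_mem p hp _⟩
    · rw [abs_div, abs_mul, abs_of_pos hw0, abs_of_pos hρ0]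
      calc ρ * |(Q.1 : ℝ)| / w ≤ 5 * Y / w := by gcongr
        _ = 5 * (Y / w) := by ring
        _ ≤ B1 := by rw [hYw]; linarith
    · rw [abs_div, abs_of_pos hw0]
      calc |(Q.2.1 : ℝ)| / w ≤ 5 * Y / w := by gcongr
        _ = 5 * (Y / w) := by ring
        _ ≤ B1 := by rw [hYw]; linarith
    · rw [abs_div, abs_of_pos (mul_pos hρ0 hw0)]
      calc |(Q.2.2 : ℝ)| / (ρ * w) ≤ 5 * Y * ρ / (ρ * w) := by gcongr
        _ = 5 * (Y / w) := by field_simp
        _ ≤ B1 := by rw [hYw]; linarith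
    · rw [abs_div, abs_mul, abs_of_pos hρ0, abs_of_pos (by positivity : (0 : ℝ) < 10000 * T),
        div_le_iff₀ hρ0]
      nlinarith
    · have hy0 : 0 ≤ y Q := by linarith
      rw [abs_of_nonneg (by positivity), div_le_iff₀ hρ0]
      have : T * y Q ≤ T * ρ := by gcongr
      nlinarith [mul_pos (by linarith : 0 < T) hρ0]
  set M := C * T ^ k * cG m.natAbs s.im ^ 2 * Y ^ (3 + ε / 2) * ρ * N with hM
  have hM0 : 0 ≤ M := by positivity
  have hcell : ∀ z ∈ K1 ×ˢ K2, ∑ Q ∈ S.filter (fun Q => keyr ρ w T p x y Q = z),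
      ‖Bz m s α N Q (x Q) (y Q)‖ ^ 2 ≤ M := by
    intro z _
    rcases (S.filter (fun Q => keyr ρ w T p x y Q = z)).eq_empty_or_nonempty with he | ⟨Q0, hQ0⟩
    · rw [he, Finset.sum_empty]; exact hM0
    · rw [Finset.mem_filter] at hQ0
      obtain ⟨hQ0S, hQ0y⟩ := hQ0
      obtain ⟨h0, h1, h2, h3, h4, h5, h6⟩ := hS Q0 hQ0S
      apply H m s Y ρ (x Q0) (y Q0) (rl Q0) p N Q0 α _ x y hs hY hρ hρY hN hNY hα
      · have m1 := mul_pos hY0 hρ0
        exact ⟨by simp only [rl]; linarith, by simp only [rl]; linarith,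
          by simp only [rl]; linarith⟩
      · exact hp
      · exact h0
      · linarith
      · linarith
      · linarith
      · intro Q hQ
        rw [Finset.mem_filter] at hQ
        obtain ⟨hQS, hQy⟩ := hQ
        obtain ⟨-, g1, g2, g3, g4, g5, g6⟩ := hS Q hQS
        have hkey : keyr ρ w T p x y Q0 = keyr ρ w T p x y Q := by rw [hQ0y, hQy]
        simp only [keyr, Prod.mk.injEq] at hkey
        obtain ⟨⟨k1, k2, k3, k4, k5⟩, k6, k7, k8⟩ := hkey
        have f1 := abs_sub_lt_of_floor k1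
        have f2 := abs_sub_lt_of_floor k2
        have f3 := abs_sub_lt_of_floor k3
        have f4 := abs_sub_lt_of_floor k4
        have f5 := abs_sub_lt_of_floor k5
        refine ⟨⟨dvd_sub_of_emod k6, dvd_sub_of_emod k7, dvd_sub_of_emod k8⟩, by linarith, ?_, ?_,
          ?_⟩
        · refine le_trans ?_ hww
          simp only [dq, rl]
          have e1 : |ρ * ((Q0.1 : ℝ) - Q.1)| ≤ w := by
            have : ρ * ((Q0.1 : ℝ) - Q.1) = (ρ * Q0.1 / w - ρ * Q.1 / w) * w := by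
              field_simp
            rw [this, abs_mul, abs_of_pos hw0]
            exact (mul_le_mul_of_nonneg_right (le_of_lt ‹_›) hw0.le).trans (one_mul w).le
          have e2 : |(Q0.2.1 : ℝ) - Q.2.1| ≤ w := by
            have : (Q0.2.1 : ℝ) - Q.2.1 = ((Q0.2.1 : ℝ) / w - (Q.2.1 : ℝ) / w) * w := by
              field_simp
            rw [this, abs_mul, abs_of_pos hw0]
            exact (mul_le_mul_of_nonneg_right (le_of_lt ‹_›) hw0.le).trans (one_mul w).le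
          have e3 : |((Q0.2.2 : ℝ) - Q.2.2) / ρ| ≤ w := by
            have : ((Q0.2.2 : ℝ) - Q.2.2) / ρ =
                ((Q0.2.2 : ℝ) / (ρ * w) - (Q.2.2 : ℝ) / (ρ * w)) * w := by
              field_simp
            rw [this, abs_mul, abs_of_pos hw0]
            exact (mul_le_mul_of_nonneg_right (le_of_lt ‹_›) hw0.le).trans (one_mul w).le
          have q1 := sq_le_sq' (abs_le.mp e1).1 (abs_le.mp e1).2
          have q2 := sq_le_sq' (abs_le.mp e2).1 (abs_le.mp e2).2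
          have q3 := sq_le_sq' (abs_le.mp e3).1 (abs_le.mp e3).2
          linarith
        · have : 10000 * T * x Q0 / ρ - 10000 * T * x Q / ρ =
              10000 * T * (x Q0 - x Q) / ρ := by ring
          rw [this, abs_div, abs_mul, abs_of_pos hρ0,
            abs_of_pos (by positivity : (0 : ℝ) < 10000 * T), div_lt_one hρ0] at f4
          rw [abs_sub_comm]
          have : 0 ≤ T * |x Q0 - x Q| := by positivity
          linarith
        · have : 10000 * T * y Q0 / ρ - 10000 * T * y Q / ρ =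
              10000 * T * (y Q0 - y Q) / ρ := by ring
          rw [this, abs_div, abs_mul, abs_of_pos hρ0,
            abs_of_pos (by positivity : (0 : ℝ) < 10000 * T), div_lt_one hρ0] at f5
          rw [abs_sub_comm]
          have : 0 ≤ T * |y Q0 - y Q| := by positivity
          linarith
  have hcard : ((K1 ×ˢ K2).card : ℝ) ≤ (4 * B1) ^ 3 * (4 * B2) ^ 2 * (p : ℝ) ^ 3 := by
    have hB11 : 1 ≤ B1 := by linarith
    have hB21 : 1 ≤ B2 := by linarith
    have c1 := card_floor hB11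
    have c2 := card_floor hB21
    simp only [hK1, hK2, Finset.card_product, Int.card_Ico, sub_zero, Int.toNat_natCast]
    push_cast
    set x := ((Finset.Icc ⌊-B1⌋ ⌊B1⌋).card : ℝ) with hx
    set z := ((Finset.Icc ⌊-B2⌋ ⌊B2⌋).card : ℝ) with hz
    have hx0 : 0 ≤ x := by positivity
    have hz0 : 0 ≤ z := by positivity
    calc x * (x * (x * (z * z))) * (p * (p * p)) = x ^ 3 * z ^ 2 * (p : ℝ) ^ 3 := by ring
      _ ≤ (4 * B1) ^ 3 * (4 * B2) ^ 2 * (p : ℝ) ^ 3 := by gcongr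
  rw [← Finset.sum_fiberwise_of_maps_to hmaps]
  calc ∑ z ∈ K1 ×ˢ K2, ∑ Q ∈ S.filter (fun Q => keyr ρ w T p x y Q = z),
        ‖Bz m s α N Q (x Q) (y Q)‖ ^ 2
      ≤ ∑ z ∈ K1 ×ˢ K2, M := Finset.sum_le_sum hcell
    _ = (K1 ×ˢ K2).card * M := by rw [Finset.sum_const, nsmul_eq_mul]
    _ ≤ (4 * B1) ^ 3 * (4 * B2) ^ 2 * (p : ℝ) ^ 3 * M := by gcongr
    _ = 80 ^ 3 * 120000 ^ 2 * C * (p : ℝ) ^ 3 * T ^ (k + 2) * cG m.natAbs s.im ^ 2 *
          ((Y ^ δ) ^ 3 * Y ^ (3 + ε / 2)) * ρ * N := by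
        rw [hM, hB1, hB2]; ring
    _ ≤ 80 ^ 3 * 120000 ^ 2 * C * (p : ℝ) ^ 3 * T ^ (k + 2) * cG m.natAbs s.im ^ 2 *
          Y ^ (3 + ε) * ρ * N := by
        have : (Y ^ δ) ^ 3 * Y ^ (3 + ε / 2) ≤ Y ^ (3 + ε) := by
          rw [← Real.rpow_natCast, ← Real.rpow_mul hY0.le, ← Real.rpow_add hY0]
          apply Real.rpow_le_rpow_of_exponent_le hY
          push_cast
          linarith
        gcongr

end Pool.Agent.H42.DF
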